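import Pool.Agent.DL.P.Defs

/-!
# DELTA (MP_d362fb_lc), row P-EQ: renaming of components
-/

set_option autoImplicit false

namespace Pool.Agent.H84.DL

open H5.DL Pool.Agent.DL.P

variable {P : Type}

theorem ren_one (r : Sys P) : r.ren 1 = r := rfl

theorem ren_ren (σ τ : Equiv.Perm ℕ) (r : Sys P) : (r.ren σ).ren τ = r.ren (τ * σ) := rfl

theorem ren_symm_ren (σ : Equiv.Perm ℕ) (r : Sys P) : (r.ren σ).ren σ⁻¹ = r := by
  rw [ren_ren, inv_mul_cancel, ren_one]

theorem ren_ren_symm (σ : Equiv.Perm ℕ) (r : Sys P) : (r.ren σ⁻¹).ren σ = r := by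
  rw [ren_ren, mul_inv_cancel, ren_one]

theorem ren_inj (σ : Equiv.Perm ℕ) {r r' : Sys P} (h : r.ren σ = r'.ren σ) : r = r' := by
  rw [← ren_symm_ren σ r, h, ren_symm_ren]

@[simp] theorem ren_n (σ : Equiv.Perm ℕ) (r : Sys P) : (r.ren σ).n = r.n := rfl
@[simp] theorem ren_rt (σ : Equiv.Perm ℕ) (r : Sys P) : (r.ren σ).rt = σ r.rt := rfl
@[simp] theorem mem_ren_J (σ : Equiv.Perm ℕ) (r : Sys P) (j : ℕ) :
    j ∈ (r.ren σ).J ↔ σ.symm j ∈ r.J := Iff.rfl
@[simp] theorem ren_E (σ : Equiv.Perm ℕ) (r : Sys P) (p q : ℕ) :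
    (r.ren σ).E p q ↔ r.E (σ.symm p) (σ.symm q) := Iff.rfl
@[simp] theorem ren_K (σ : Equiv.Perm ℕ) (r : Sys P) (j : ℕ) :
    (r.ren σ).K j = r.K (σ.symm j) := rfl
@[simp] theorem ren_Z (σ : Equiv.Perm ℕ) (r : Sys P) (p q : ℕ) :
    (r.ren σ).Z p q = r.Z (σ.symm p) (σ.symm q) := rfl
@[simp] theorem ren_X (σ : Equiv.Perm ℕ) (r : Sys P) (j : ℕ) :
    (r.ren σ).X j = r.X (σ.symm j) := rfl

theorem forest_ren {J : Set ℕ} {E : ℕ → ℕ → Prop} (h : Forest J E) (σ : Equiv.Perm ℕ) :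
    Forest {j | σ.symm j ∈ J} (fun p q => E (σ.symm p) (σ.symm q)) := by
  intro b hb
  obtain ⟨rk, h1, h2, h3⟩ := h (σ.symm b) hb
  refine ⟨fun v => rk (σ.symm v), ?_, ?_, ?_⟩
  · intro v hv hvb
    exact h1 _ hv (fun hc => hvb (σ.symm.injective hc))
  · intro p q hpq
    exact h2 _ _ hpq
  · intro v a a' ha ha' h4 h5
    exact σ.symm.injective (h3 _ _ _ ha ha' h4 h5)

theorem valid_ren {Lg : Prom → Prop} {r : Sys Prom} (h : Valid Lg r) (σ : Equiv.Perm ℕ) :
    Valid Lg (r.ren σ) where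
  fin := by
    have : (r.ren σ).J = σ '' r.J := by
      ext j
      simp only [mem_ren_J, Set.mem_image]
      constructor
      · intro hj
        exact ⟨_, hj, by simp⟩
      · rintro ⟨a, ha, rfl⟩
        simpa using ha
    rw [this]
    exact h.fin.image _
  rt := by simpa using h.rt
  Es := fun p q hpq => h.Es _ _ hpq
  EJ := fun p q hpq => h.EJ _ _ hpq
  forest := forest_ren h.forest σ
  low := fun j hj => h.low _ hj
  symZ := fun p q => h.symZ _ _
  good := fun p q hpq => h.good _ _ hpq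
  nX := fun j hj => h.nX _ hj
  nZ := fun p q hpq => h.nZ _ _ hpq
  val := fun j hj => h.val _ hj
  adm := fun p q hpq => h.adm _ _ hpq
  sh := fun p q hpq => h.sh _ _ hpq

theorem valid_ren_iff {Lg : Prom → Prop} {r : Sys Prom} (σ : Equiv.Perm ℕ) :
    Valid Lg (r.ren σ) ↔ Valid Lg r :=
  ⟨fun h => by simpa only [ren_symm_ren] using valid_ren h σ⁻¹, fun h => valid_ren h σ⟩

theorem emb_ren {e r : Sys Prom} {J0 : Set ℕ} {j : ℕ} {ρ : ℕ → ℕ} (h : Emb e r J0 j ρ)
    (σ : Equiv.Perm ℕ) : Emb e (r.ren σ) {i | σ.symm i ∈ J0} (σ j) (fun a => σ (ρ a)) where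
  n := h.n
  rt := by rw [h.rt]
  J := fun a ha => by simpa using h.J a ha
  inj := fun a ha b hb hab => h.inj a ha b hb (σ.injective hab)
  new := fun a ha hne => by simpa using h.new a ha hne
  E := fun a b hab => by simpa using h.E a b hab
  E' := by
    intro a ha hne w hw
    have hw' : r.E (ρ a) (σ.symm w) := by simpa using hw
    obtain ⟨b, hb, hb'⟩ := h.E' a ha hne _ hw'
    exact ⟨b, hb, by rw [← hb']; simp⟩
  K := fun a ha hne => by simpa using h.K a ha hne
  Z := fun a b hab => by simpa using h.Z a b hab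
  X := fun a ha => by simpa using h.X a ha

theorem ext_ren {r r' : Sys Prom} (h : Ext r r') (σ : Equiv.Perm ℕ) :
    Ext (r.ren σ) (r'.ren σ) where
  n := h.n
  rt := by simp [h.rt]
  J := fun j hj => h.J hj
  E := fun p hp q hq => h.E _ hp _ hq
  K := fun j hj => h.K _ hj
  Z := fun p q hpq => h.Z _ _ hpq
  X := fun j hj => h.X _ hj
  rel := by
    intro j hj φ hφ m hm hm'
    obtain ⟨e, ρ, he, hρ⟩ := h.rel _ hj φ hφ m hm hm'
    refine ⟨e, fun a => σ (ρ a), he, ?_⟩
    have := emb_ren hρ σ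
    rwa [Equiv.apply_symm_apply] at this

theorem ext_ren_iff {r r' : Sys Prom} (σ : Equiv.Perm ℕ) :
    Ext (r.ren σ) (r'.ren σ) ↔ Ext r r' :=
  ⟨fun h => by simpa only [ren_symm_ren] using ext_ren h σ⁻¹, fun h => ext_ren h σ⟩

theorem time_ren {r r' : Sys Prom} {m : ℕ} {C : ℕ → Set Node} (h : Time r r' m C)
    (σ : Equiv.Perm ℕ) : Time (r.ren σ) (r'.ren σ) m (fun j => C (σ.symm j)) where
  n := h.n
  rt := by simp [h.rt]
  J := by ext j; simp [h.J]
  E := by ext p q; simp [h.E]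
  K := by ext1 j; simp [h.K]
  Z := by ext1 p; ext1 q; simp [h.Z]
  X := fun j f => h.X _ f
  cone := fun j => h.cone _
  sh := fun p q hpq => h.sh _ _ hpq
  mn := fun j => h.mn _
  free := fun j => h.free _
  tok := fun j => h.tok _
  rel := fun j => h.rel _

theorem time_ren_iff {r r' : Sys Prom} {m : ℕ} {C : ℕ → Set Node} (σ : Equiv.Perm ℕ) :
    Time (r.ren σ) (r'.ren σ) m (fun j => C (σ.symm j)) ↔ Time r r' m C := by
  constructor
  · intro h
    have h1 := time_ren h σ⁻¹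
    simp only [ren_symm_ren] at h1
    have h2 : (fun j => C (σ.symm ((σ⁻¹).symm j))) = C := by
      funext j
      congr 1
      change σ⁻¹ ((σ⁻¹)⁻¹ j) = j
      rw [inv_inv, ← Equiv.Perm.mul_apply, inv_mul_cancel, Equiv.Perm.one_apply]
    rwa [h2] at h1
  · intro h
    exact time_ren h σ

theorem step_ren {Lg : Prom → Prop} {r r' : Sys Prom} (h : Step Lg r r') (σ : Equiv.Perm ℕ) :
    Step Lg (r.ren σ) (r'.ren σ) := by
  obtain ⟨hv, h | ⟨m, C, h⟩⟩ := h
  · exact ⟨valid_ren hv σ, Or.inl (ext_ren h σ)⟩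
  · exact ⟨valid_ren hv σ, Or.inr ⟨m, _, time_ren h σ⟩⟩

theorem step_ren_iff {Lg : Prom → Prop} {r r' : Sys Prom} (σ : Equiv.Perm ℕ) :
    Step Lg (r.ren σ) (r'.ren σ) ↔ Step Lg r r' :=
  ⟨fun h => by simpa only [ren_symm_ren] using step_ren h σ⁻¹, fun h => step_ren h σ⟩

theorem steps_ren {Lg : Prom → Prop} {r r' : Sys Prom} (h : Steps Lg r r') (σ : Equiv.Perm ℕ) :
    Steps Lg (r.ren σ) (r'.ren σ) := by
  induction h with
  | refl => exact Relation.ReflTransGen.refl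
  | tail _ hs ih => exact Relation.ReflTransGen.tail ih (step_ren hs σ)

theorem steps_ren_iff {Lg : Prom → Prop} {r r' : Sys Prom} (σ : Equiv.Perm ℕ) :
    Steps Lg (r.ren σ) (r'.ren σ) ↔ Steps Lg r r' :=
  ⟨fun h => by simpa only [ren_symm_ren] using steps_ren h σ⁻¹, fun h => steps_ren h σ⟩

theorem below_ren_iff {K : Set D} {r : Sys Prom} (σ : Equiv.Perm ℕ) :
    Below K (r.ren σ) ↔ Below K r := by
  constructor
  · intro h j hj
    have := h (σ j) (by simpa using hj)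
    simpa using this
  · intro h j hj
    exact h _ hj

theorem stepsIn_ren {Lg : Prom → Prop} {K : Set D} {r r' : Sys Prom} (h : StepsIn Lg K r r')
    (σ : Equiv.Perm ℕ) : StepsIn Lg K (r.ren σ) (r'.ren σ) := by
  induction h with
  | refl => exact Relation.ReflTransGen.refl
  | tail _ hs ih =>
    exact Relation.ReflTransGen.tail ih ⟨step_ren hs.1 σ, (below_ren_iff σ).mpr hs.2⟩

theorem stepsIn_ren_iff {Lg : Prom → Prop} {K : Set D} {r r' : Sys Prom} (σ : Equiv.Perm ℕ) :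
    StepsIn Lg K (r.ren σ) (r'.ren σ) ↔ StepsIn Lg K r r' :=
  ⟨fun h => by simpa only [ren_symm_ren] using stepsIn_ren h σ⁻¹, fun h => stepsIn_ren h σ⟩

theorem steps_of_stepsIn {Lg : Prom → Prop} {K : Set D} {r r' : Sys Prom}
    (h : StepsIn Lg K r r') : Steps Lg r r' := by
  induction h with
  | refl => exact Relation.ReflTransGen.refl
  | tail _ hs ih => exact Relation.ReflTransGen.tail ih hs.1

theorem below_of_stepsIn {Lg : Prom → Prop} {K : Set D} {r r' : Sys Prom} (hr : Below K r)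
    (h : StepsIn Lg K r r') : Below K r' := by
  induction h with
  | refl => exact hr
  | tail _ hs _ => exact hs.2

theorem isCond_ren {r : Sys Prom} (h : IsCond r) (σ : Equiv.Perm ℕ) : IsCond (r.ren σ) where
  val := valid_ren h.val σ
  top := by simpa using h.top
  bdd := by
    intro j hj hne
    refine h.bdd _ hj (fun hc => hne ?_)
    rw [ren_rt, ← hc, Equiv.apply_symm_apply]

theorem isCond_ren_iff {r : Sys Prom} (σ : Equiv.Perm ℕ) : IsCond (r.ren σ) ↔ IsCond r :=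
  ⟨fun h => by simpa only [ren_symm_ren] using isCond_ren h σ⁻¹, fun h => isCond_ren h σ⟩

theorem valid_of_steps {Lg : Prom → Prop} {r r' : Sys Prom} (hr : Valid Lg r)
    (h : Steps Lg r r') : Valid Lg r' := by
  induction h with
  | refl => exact hr
  | tail _ hs _ => exact hs.1

theorem steps_rt {Lg : Prom → Prop} {r r' : Sys Prom} (h : Steps Lg r r') : r'.rt = r.rt := by
  induction h with
  | refl => rfl
  | tail _ hs ih =>
    obtain ⟨_, h | ⟨m, C, h⟩⟩ := hs
    · rw [h.rt, ih]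
    · rw [h.rt, ih]

theorem steps_n {Lg : Prom → Prop} {r r' : Sys Prom} (h : Steps Lg r r') : r.n ≤ r'.n := by
  induction h with
  | refl => exact le_rfl
  | tail _ hs ih =>
    obtain ⟨_, h | ⟨m, C, h⟩⟩ := hs
    · rw [h.n]; exact ih
    · rw [h.n]; omega

/-- the renamed condition -/
def renPos (σ : Equiv.Perm ℕ) (r : Pos) : Pos := ⟨r.1.ren σ, isCond_ren r.2 σ⟩

theorem stronger_refl (r : Pos) : Stronger r r := ⟨1, Relation.ReflTransGen.refl⟩

theorem stronger_trans {r r' r'' : Pos} (h : Stronger r'' r') (h' : Stronger r' r) :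
    Stronger r'' r := by
  obtain ⟨σ, hσ⟩ := h
  obtain ⟨τ, hτ⟩ := h'
  refine ⟨τ * σ, ?_⟩
  have h1 := steps_ren hσ τ
  rw [ren_ren] at h1
  exact Relation.ReflTransGen.trans hτ h1

theorem stronger_of_steps {r r' : Pos} (h : Steps Legal r.1 r'.1) : Stronger r' r :=
  ⟨1, h⟩

theorem stronger_ren (σ : Equiv.Perm ℕ) (r : Pos) : Stronger (renPos σ r) r := by
  refine ⟨σ⁻¹, ?_⟩
  change Steps Legal r.1 ((r.1.ren σ).ren σ⁻¹)
  rw [ren_symm_ren]
  exact Relation.ReflTransGen.refl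

theorem ren_stronger (σ : Equiv.Perm ℕ) (r : Pos) : Stronger r (renPos σ r) :=
  ⟨σ, Relation.ReflTransGen.refl⟩

theorem stronger_n {r r' : Pos} (h : Stronger r' r) : r.1.n ≤ r'.1.n := by
  obtain ⟨σ, hσ⟩ := h
  have h1 := steps_n hσ
  exact h1

/-- `Stronger` as a preorder: `r' ≤ r` iff `r'` is stronger than `r` -/
@[reducible] def posPreorder : Preorder Pos where
  le := Stronger
  le_refl := stronger_refl
  le_trans := fun _ _ _ h h' => stronger_trans h h'

end Pool.Agent.H84.DL
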